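import Mathlib

set_option autoImplicit false

open MeasureTheory Set Metric Filter Topology
open scoped ENNReal

namespace Pool.Agent.Lib.Helper82

/-- A tree of nested partitions of `X`. -/
structure Net (X ι : Type) where
  idx : ℕ → X → ι
  par : ι → ι
  ch : ι → Finset ι
  hpar : ∀ j x, par (idx (j + 1) x) = idx j x
  hch : ∀ k k', k' ∈ ch k ↔ par k' = k

variable {X ι : Type} (N : Net X ι)

def Net.cell (j : ℕ) (k : ι) : Set X := {x | N.idx j x = k}

theorem Net.idx_eq_of_le {i j : ℕ} (hij : i ≤ j) {x y : X} (h : N.idx j x = N.idx j y) :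
    N.idx i x = N.idx i y := by
  induction j, hij using Nat.le_induction with
  | base => exact h
  | succ j _ ih => exact ih (by rw [← N.hpar j x, ← N.hpar j y, h])

/-- weight of a set: the least weight of a cell containing it -/
noncomputable def Net.wt (w : ℕ → ℝ≥0∞) (S : Set X) : ℝ≥0∞ :=
  ⨅ (j : ℕ) (k : ι) (_ : S ⊆ N.cell j k), w j

/-- the net content -/
noncomputable def Net.cont (w : ℕ → ℝ≥0∞) : OuterMeasure X := OuterMeasure.boundedBy (N.wt w)

theorem Net.cont_le (w : ℕ → ℝ≥0∞) {S : Set X} {j : ℕ} {k : ι} (h : S ⊆ N.cell j k) :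
    N.cont w S ≤ w j :=
  (OuterMeasure.boundedBy_le S).trans (iInf_le_of_le j (iInf_le_of_le k (iInf_le _ h)))

theorem Net.le_cont (w : ℕ → ℝ≥0∞) {ν : OuterMeasure X}
    (h : ∀ S j k, S ⊆ N.cell j k → ν S ≤ w j) : ν ≤ N.cont w :=
  OuterMeasure.le_boundedBy.2 fun S => le_iInf fun j => le_iInf fun k => le_iInf fun hS =>
    h S j k hS

/-- truncation of an outer measure -/
noncomputable def truncOM (c : ℝ≥0∞) (ν : OuterMeasure X) : OuterMeasure X where
  measureOf S := min c (ν S)
  empty := by simp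
  mono h := min_le_min le_rfl (ν.mono h)
  iUnion_nat S _ := by
    by_cases h : ∃ i, c ≤ ν (S i)
    · obtain ⟨i, hi⟩ := h
      refine (min_le_left _ _).trans (le_trans ?_ (ENNReal.le_tsum i))
      exact le_min le_rfl hi
    · push Not at h
      refine (min_le_right _ _).trans ((measure_iUnion_le _).trans (le_of_eq ?_))
      congr 1
      funext i
      exact (min_eq_right (h i).le).symm

theorem Net.cell_subset_children (j : ℕ) (k : ι) (B : Set X) :
    B ∩ N.cell j k ⊆ ⋃ k' ∈ N.ch k, B ∩ N.cell (j + 1) k' := by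
  rintro x ⟨hB, hx⟩
  simp only [mem_iUnion]
  exact ⟨N.idx (j + 1) x, (N.hch _ _).2 ((N.hpar j x).trans hx), hB, rfl⟩

theorem Net.cont_le_sum (w : ℕ → ℝ≥0∞) (j : ℕ) (k : ι) (B : Set X) :
    N.cont w (B ∩ N.cell j k) ≤ ∑ k' ∈ N.ch k, N.cont w (B ∩ N.cell (j + 1) k') :=
  (measure_mono (N.cell_subset_children j k B)).trans (measure_biUnion_finset_le _ _)

theorem Net.min_le_cont {w : ℕ → ℝ≥0∞} (hw : Antitone w) (j : ℕ) (k : ι) (B : Set X) :
    min (w j) (∑ k' ∈ N.ch k, N.cont w (B ∩ N.cell (j + 1) k')) ≤ N.cont w (B ∩ N.cell j k) := by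
  classical
  have hap : ∀ S, truncOM (w j) (OuterMeasure.sum fun k' : N.ch k =>
      OuterMeasure.restrict (N.cell (j + 1) k') (N.cont w)) S =
      min (w j) (∑ k' ∈ N.ch k, N.cont w (S ∩ N.cell (j + 1) k')) := by
    intro S
    change min (w j) _ = _
    rw [OuterMeasure.sum_apply]
    simp only [OuterMeasure.restrict_apply]
    rw [Finset.tsum_subtype (N.ch k) fun k' => N.cont w (S ∩ N.cell (j + 1) k')]
  have h := N.le_cont w (ν := truncOM (w j) (OuterMeasure.sum fun k' : N.ch k =>
      OuterMeasure.restrict (N.cell (j + 1) k') (N.cont w))) (by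
      intro S i l hS
      rw [hap]
      rcases le_or_gt i j with hij | hij
      · exact (min_le_left _ _).trans (hw hij)
      · refine (min_le_right _ _).trans ?_
        rcases S.eq_empty_or_nonempty with rfl | ⟨x, hx⟩
        · simp
        · have h1 : ∀ k', k' ≠ N.idx (j + 1) x → N.cont w (S ∩ N.cell (j + 1) k') = 0 := by
            intro k' hk'
            have : S ∩ N.cell (j + 1) k' = ∅ := by
              refine eq_empty_of_forall_notMem fun y hy => hk' ?_
              rw [← hy.2]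
              exact N.idx_eq_of_le hij ((hS hy.1).trans (hS hx).symm)
            rw [this, measure_empty]
          by_cases h2 : N.idx (j + 1) x ∈ N.ch k
          · rw [Finset.sum_eq_single_of_mem _ h2 fun k' _ hk' => h1 k' hk']
            exact N.cont_le w (inter_subset_left.trans hS)
          · rw [Finset.sum_eq_zero fun k' hk' => h1 k' (by rintro rfl; exact h2 hk')]
            exact zero_le)
  refine le_trans (le_of_eq ?_) (h (B ∩ N.cell j k))
  rw [hap]
  congr 1
  refine Finset.sum_congr rfl fun k' hk' => ?_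
  congr 1
  ext x
  simp only [mem_inter_iff, Net.cell, mem_ofPred_eq]
  constructor
  · rintro ⟨h1, h2⟩
    exact ⟨⟨h1, by rw [← N.hpar j x, h2]; exact (N.hch _ _).1 hk'⟩, h2⟩
  · rintro ⟨⟨h1, -⟩, h2⟩
    exact ⟨h1, h2⟩

theorem Net.cont_eq_zero {w : ℕ → ℝ≥0∞} {θ : ℝ≥0∞} (hθ0 : θ ≠ 0) (hθ : θ < 1) {B : Set X}
    (hB : N.cont w B ≠ ∞)
    (h : ∀ j, ∀ x ∈ B, N.cont w (B ∩ N.cell j (N.idx j x)) ≤ θ * w j) : N.cont w B = 0 := by
  have hθt : θ ≠ ∞ := (hθ.trans ENNReal.one_lt_top).ne
  have h1 := N.le_cont w (ν := θ⁻¹ • OuterMeasure.restrict B (N.cont w)) (by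
      intro S j k hS
      rw [smul_apply, OuterMeasure.restrict_apply, smul_eq_mul]
      rcases (S ∩ B).eq_empty_or_nonempty with h0 | ⟨x, hx⟩
      · simp [h0]
      · rw [ENNReal.inv_mul_le_iff hθ0 hθt]
        refine le_trans (measure_mono ?_) (h j x hx.2)
        intro y hy
        exact ⟨hy.2, (hS hy.1).trans (hS hx.1).symm⟩) B
  rw [smul_apply, OuterMeasure.restrict_apply, smul_eq_mul, inter_self,
    ENNReal.inv_mul_le_iff hθ0 hθt] at h1
  by_contra h0
  have h2 := (ENNReal.mul_lt_mul_iff_left h0 hB).2 hθ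
  rw [one_mul] at h2
  exact absurd h1 (not_le.2 h2)

open Classical in
/-- unsaturated cells all of whose ancestors are unsaturated -/
noncomputable def Net.uns (sat : ℕ → ι → Prop) (k₀ : ι) : ℕ → Finset ι
  | 0 => ({k₀} : Finset ι).filter fun k => ¬ sat 0 k
  | j + 1 => ((Net.uns sat k₀ j).biUnion N.ch).filter fun k => ¬ sat (j + 1) k

open Classical in
/-- maximal saturated cells -/
noncomputable def Net.mxs (sat : ℕ → ι → Prop) (k₀ : ι) : ℕ → Finset ι
  | 0 => ({k₀} : Finset ι).filter fun k => sat 0 k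
  | j + 1 => ((N.uns sat k₀ j).biUnion N.ch).filter fun k => sat (j + 1) k

theorem Net.cont_iUnion_le {w : ℕ → ℝ≥0∞} (hw : Antitone w) (hw0 : w 0 ≠ ∞) {k₀ : ι}
    {A : ℕ → Set X} (hA : Monotone A) (hA0 : ∀ n, A n ⊆ N.cell 0 k₀) :
    N.cont w (⋃ n, A n) ≤ ⨆ n, N.cont w (A n) := by
  classical
  have key : ∀ θ : ℝ≥0∞, θ ≠ 0 → θ < 1 → θ * N.cont w (⋃ n, A n) ≤ ⨆ n, N.cont w (A n) := by
    intro θ hθ0 hθ
    set g : ℕ → ι → ℝ≥0∞ := fun j k => ⨆ n, N.cont w (A n ∩ N.cell j k) with hg
    obtain ⟨sat, hsat⟩ : ∃ sat : ℕ → ι → Prop, ∀ j k, sat j k ↔ θ * w j ≤ g j k :=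
      ⟨_, fun _ _ => Iff.rfl⟩
    have hmono : ∀ j k, Monotone fun n => N.cont w (A n ∩ N.cell j k) := fun j k a b hab =>
      measure_mono (inter_subset_inter_left _ (hA hab))
    have h1 : ∀ j k, ¬ sat j k → ∑ k' ∈ N.ch k, g (j + 1) k' ≤ g j k := by
      intro j k hk
      simp only [hsat, not_le] at hk
      simp only [hg]
      rw [ENNReal.finsetSum_iSup_of_monotone fun k' => hmono (j + 1) k']
      refine iSup_mono fun n => ?_
      rcases min_le_iff.1 (N.min_le_cont hw j k (A n)) with h | h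
      · exfalso
        have h2 : g j k < w j := hk.trans_le (mul_le_of_le_one_left' hθ.le)
        exact absurd (h.trans (le_iSup (fun n => N.cont w (A n ∩ N.cell j k)) n)) (not_le.2 h2)
      · exact h
    have h2 : ∀ j, ∑ i ∈ Finset.range (j + 1), ∑ k ∈ N.mxs sat k₀ i, g i k +
        ∑ k ∈ N.uns sat k₀ j, g j k ≤ g 0 k₀ := by
      intro j
      induction j with
      | zero =>
        simp only [zero_add, Finset.range_one, Finset.sum_singleton, Net.mxs, Net.uns]
        rw [Finset.sum_filter_add_sum_filter_not]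
        simp
      | succ j ih =>
        refine le_trans ?_ ih
        rw [Finset.sum_range_succ, add_assoc]
        gcongr
        simp only [Net.mxs, Net.uns]
        rw [Finset.sum_filter_add_sum_filter_not, Finset.sum_biUnion]
        · refine Finset.sum_le_sum fun k hk => h1 j k ?_
          cases j <;> exact (Finset.mem_filter.1 hk).2
        · intro a _ b _ hab
          refine Finset.disjoint_left.2 fun c ha hb => hab ?_
          rw [← (N.hch _ _).1 ha, ← (N.hch _ _).1 hb]
    have h3 : ∀ x ∈ N.cell 0 k₀, ∀ j, N.idx j x ∈ N.uns sat k₀ j ∨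
        ∃ i, N.idx i x ∈ N.mxs sat k₀ i := by
      intro x hx j
      induction j with
      | zero =>
        by_cases h : sat 0 (N.idx 0 x)
        · exact Or.inr ⟨0, Finset.mem_filter.2 ⟨Finset.mem_singleton.2 hx, h⟩⟩
        · exact Or.inl (Finset.mem_filter.2 ⟨Finset.mem_singleton.2 hx, h⟩)
      | succ j ih =>
        rcases ih with ih | ih
        · have hm : N.idx (j + 1) x ∈ (N.uns sat k₀ j).biUnion N.ch :=
            Finset.mem_biUnion.2 ⟨_, ih, (N.hch _ _).2 (N.hpar j x)⟩
          by_cases h : sat (j + 1) (N.idx (j + 1) x)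
          · exact Or.inr ⟨j + 1, Finset.mem_filter.2 ⟨hm, h⟩⟩
          · exact Or.inl (Finset.mem_filter.2 ⟨hm, h⟩)
        · exact Or.inr ih
    set Z : Set X := {x | ∀ j, N.idx j x ∈ N.uns sat k₀ j} with hZ
    have h4 : ∀ n, N.cont w (A n ∩ Z) = 0 := by
      intro n
      refine N.cont_eq_zero hθ0 hθ
        (ne_top_of_le_ne_top hw0 (N.cont_le w (inter_subset_left.trans (hA0 n)))) ?_
      intro j x hx
      have h5 : ¬ sat j (N.idx j x) := by
        have := hx.2 j
        cases j <;> exact (Finset.mem_filter.1 this).2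
      simp only [hsat, not_le] at h5
      refine le_trans ?_ h5.le
      exact le_iSup_of_le n (measure_mono (inter_subset_inter_left _ inter_subset_left))
    have h5 : (⋃ n, A n) ⊆ (⋃ n, A n ∩ Z) ∪ ⋃ i, ⋃ k ∈ N.mxs sat k₀ i, N.cell i k := by
      intro x hx
      obtain ⟨n, hn⟩ := mem_iUnion.1 hx
      by_cases h : x ∈ Z
      · exact Or.inl (mem_iUnion.2 ⟨n, hn, h⟩)
      · right
        simp only [hZ, mem_ofPred_eq, not_forall] at h
        obtain ⟨j, hj⟩ := h
        obtain ⟨i, hi⟩ := (h3 x (hA0 n hn) j).resolve_left hj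
        simp only [mem_iUnion]
        exact ⟨i, _, hi, rfl⟩
    have h6 : N.cont w (⋃ n, A n) ≤ ∑' i, ∑ k ∈ N.mxs sat k₀ i, w i := by
      refine (measure_mono h5).trans ((measure_union_le _ _).trans ?_)
      rw [measure_iUnion_null h4, zero_add]
      refine (measure_iUnion_le _).trans (ENNReal.tsum_le_tsum fun i => ?_)
      exact (measure_biUnion_finset_le _ _).trans
        (Finset.sum_le_sum fun k _ => N.cont_le w subset_rfl)
    refine (mul_le_mul' le_rfl h6).trans ?_
    rw [← ENNReal.tsum_mul_left]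
    refine ENNReal.tsum_le_of_sum_range_le fun j => ?_
    calc ∑ i ∈ Finset.range j, θ * ∑ k ∈ N.mxs sat k₀ i, w i
        ≤ ∑ i ∈ Finset.range (j + 1), ∑ k ∈ N.mxs sat k₀ i, g i k := by
          refine le_trans (Finset.sum_le_sum fun i _ => ?_)
            (Finset.sum_le_sum_of_subset (Finset.range_subset_range.2 j.le_succ))
          rw [Finset.mul_sum]
          refine Finset.sum_le_sum fun k hk => (hsat _ _).1 ?_
          cases i <;> exact (Finset.mem_filter.1 hk).2
      _ ≤ g 0 k₀ := le_self_add.trans (h2 j)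
      _ ≤ _ := iSup_mono fun n => measure_mono inter_subset_left
  exact ENNReal.le_of_forall_lt_one_mul_le fun θ hθ => by
    rcases eq_or_ne θ 0 with rfl | h0
    · simp
    · exact key θ h0 hθ

end Pool.Agent.Lib.Helper82
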