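import Pool.Agent.Lib.Helper82.Content

set_option autoImplicit false

open MeasureTheory Set Metric Filter Topology
open scoped ENNReal NNReal

namespace Pool.Agent.Lib.Helper82

variable {X ι : Type} (N : Net X ι)

theorem Net.exists_bounds {w : ℕ → ℝ≥0∞} (hw : Antitone w) (hw0 : w 0 ≠ ∞) {k₀ : ι}
    (f : (ℕ → ℕ) → X) (hf : range f ⊆ N.cell 0 k₀) {c : ℝ≥0∞} (hc : c < N.cont w (range f)) :
    ∃ (b : ℕ → ℕ) (T : ℕ → Set (ℕ → ℕ)), Antitone T ∧ (∀ k, c < N.cont w (f '' T k)) ∧
      ∀ k, ∀ σ ∈ T k, ∀ i < k, σ i ≤ b i := by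
  have step : ∀ (k : ℕ) (T : Set (ℕ → ℕ)), c < N.cont w (f '' T) →
      ∃ b : ℕ, c < N.cont w (f '' (T ∩ {σ | σ k ≤ b})) := by
    intro k T hT
    have h1 := N.cont_iUnion_le hw hw0 (k₀ := k₀) (A := fun b : ℕ => f '' (T ∩ {σ | σ k ≤ b}))
      (fun a b hab => image_mono (inter_subset_inter_right _ fun σ hσ => le_trans hσ hab))
      (fun b => (image_subset_range _ _).trans hf)
    have h2 : f '' T ⊆ ⋃ b : ℕ, f '' (T ∩ {σ | σ k ≤ b}) := by
      rintro _ ⟨σ, hσ, rfl⟩
      exact mem_iUnion.2 ⟨σ k, σ, ⟨hσ, le_refl (σ k)⟩, rfl⟩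
    exact lt_iSup_iff.1 ((hT.trans_le (measure_mono h2)).trans_le h1)
  choose! b hb using step
  let T : ℕ → Set (ℕ → ℕ) := fun k => Nat.rec univ (fun k T => T ∩ {σ | σ k ≤ b k T}) k
  have hT : ∀ k, T (k + 1) = T k ∩ {σ | σ k ≤ b k (T k)} := fun k => rfl
  have hanti : Antitone T := antitone_nat_of_succ_le fun k => by rw [hT]; exact inter_subset_left
  refine ⟨fun k => b k (T k), T, hanti, fun k => ?_, fun k σ hσ i hi => ?_⟩
  · induction k with
    | zero => simpa [T] using hc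
    | succ k ih => rw [hT]; exact hb k _ ih
  · exact (hanti (Nat.succ_le_of_lt hi) hσ).2

theorem iInter_closure_subset [MetricSpace X] {f : (ℕ → ℕ) → X} (hf : Continuous f) {b : ℕ → ℕ}
    {T : ℕ → Set (ℕ → ℕ)} (hT : ∀ k, ∀ σ ∈ T k, ∀ i < k, σ i ≤ b i) :
    IsCompact (f '' Set.pi univ fun i => Iic (b i)) ∧
      (⋂ k, closure (f '' T k)) ⊆ f '' Set.pi univ fun i => Iic (b i) := by
  have hK : IsCompact (Set.pi univ fun i => Iic (b i)) :=
    isCompact_univ_pi fun i => (finite_Iic _).isCompact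
  refine ⟨hK.image hf, fun x hx => ?_⟩
  have h1 : ∀ k : ℕ, ∃ σ ∈ T k, dist x (f σ) < 1 / ((k : ℝ) + 1) := by
    intro k
    obtain ⟨_, ⟨σ, hσ, rfl⟩, h⟩ := Metric.mem_closure_iff.1 (mem_iInter.1 hx k) _
      (Nat.one_div_pos_of_nat (n := k))
    exact ⟨σ, hσ, h⟩
  choose σ hσ hd using h1
  obtain ⟨τ, hτ, φ, hφ, hlim⟩ := hK.tendsto_subseq (x := fun k i => min (σ k i) (b i))
    (fun k i _ => mem_Iic.2 (min_le_right _ _))
  refine ⟨τ, hτ, ?_⟩
  have h2 : Tendsto (fun k => σ (φ k)) atTop (𝓝 τ) := by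
    rw [tendsto_pi_nhds] at hlim ⊢
    intro i
    refine (hlim i).congr' ?_
    filter_upwards [eventually_gt_atTop i] with k hk
    exact min_eq_left (hT _ _ (hσ _) i (hk.trans_le (hφ.id_le k)))
  have h3 : Tendsto (fun k => f (σ (φ k))) atTop (𝓝 x) := by
    rw [tendsto_iff_dist_tendsto_zero]
    refine squeeze_zero (fun _ => dist_nonneg) (fun k => ?_)
      (tendsto_one_div_add_atTop_nhds_zero_nat.comp hφ.tendsto_atTop)
    rw [dist_comm]
    exact (hd _).le
  exact tendsto_nhds_unique ((hf.tendsto τ).comp h2) h3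

open Classical in
/-- the flow on the tree -/
noncomputable def Net.flow (G : ℕ → ι → ℝ≥0∞) (k₀ : ι) : ℕ → ι → ℝ≥0∞
  | 0 => fun k => if k = k₀ then 1 else 0
  | j + 1 => fun k => Net.flow G k₀ j (N.par k) *
      (G (j + 1) k / ∑ k' ∈ N.ch (N.par k), G (j + 1) k')

theorem Net.flow_le {G : ℕ → ι → ℝ≥0∞} {k₀ : ι} {c : ℝ≥0∞} (hc : c ≤ G 0 k₀)
    (hG : ∀ j k, G j k ≤ ∑ k' ∈ N.ch k, G (j + 1) k') (j : ℕ) (k : ι) :
    c * N.flow G k₀ j k ≤ G j k := by
  induction j generalizing k with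
  | zero =>
    simp only [Net.flow]
    split_ifs with h
    · simpa [h] using hc
    · simp
  | succ j ih =>
    simp only [Net.flow]
    rw [← mul_assoc]
    exact (mul_le_mul' ((ih _).trans (hG _ _)) le_rfl).trans ENNReal.mul_div_le

theorem Net.tsum_flow {G : ℕ → ι → ℝ≥0∞} {k₀ : ι} {c : ℝ≥0∞} (hc0 : c ≠ 0) (hc : c ≤ G 0 k₀)
    (hG : ∀ j k, G j k ≤ ∑ k' ∈ N.ch k, G (j + 1) k') (hGt : ∀ j k, G j k ≠ ∞) (j : ℕ)
    (φ : ι → ℝ≥0∞) :
    ∑' k, N.flow G k₀ (j + 1) k * φ (N.par k) = ∑' k, N.flow G k₀ j k * φ k := by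
  rw [← ENNReal.tsum_fiberwise _ N.par]
  congr 1
  funext k
  have h1 : N.par ⁻¹' {k} = (N.ch k : Set ι) := by
    ext k'
    simp [N.hch]
  rw [h1, Finset.tsum_subtype' (N.ch k) fun k' => N.flow G k₀ (j + 1) k' * φ (N.par k')]
  have h2 : ∀ k' ∈ N.ch k, N.flow G k₀ (j + 1) k' * φ (N.par k') =
      N.flow G k₀ j k * φ k * (G (j + 1) k' / ∑ k' ∈ N.ch k, G (j + 1) k') := by
    intro k' hk'
    simp only [Net.flow]
    rw [(N.hch _ _).1 hk']
    ring
  rw [Finset.sum_congr rfl h2, ← Finset.mul_sum]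
  rcases eq_or_ne (∑ k' ∈ N.ch k, G (j + 1) k') 0 with h0 | h0
  · have h3 : N.flow G k₀ j k = 0 := by
      have := (N.flow_le hc hG j k).trans ((hG j k).trans h0.le)
      simpa [hc0] using this
    simp [h3]
  · simp only [div_eq_mul_inv]
    rw [← Finset.sum_mul, ENNReal.mul_inv_cancel h0 (ENNReal.sum_ne_top.2 fun _ _ => hGt _ _),
      mul_one]

theorem Net.exists_measure [MetricSpace X] [ProperSpace X] [MeasurableSpace X] [BorelSpace X]
    [Countable ι] {w : ℕ → ℝ≥0∞} (hwt : ∀ j, w j ≠ ∞) {k₀ : ι}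
    (hb : Bornology.IsBounded (N.cell 0 k₀)) {A : ℕ → Set X} (hA : Antitone A)
    (hA0 : ∀ n, A n ⊆ N.cell 0 k₀) {c : ℝ≥0∞} (hc0 : c ≠ 0) (hc : ∀ n, c ≤ N.cont w (A n)) :
    ∃ μ : Measure X, IsProbabilityMeasure μ ∧ (∀ n, μ (closure (A n))ᶜ = 0) ∧
      ∀ (U : Set X) (j : ℕ) (s : Finset ι), IsOpen U → (∀ y ∈ U, N.idx j y ∈ s) →
        c * μ U ≤ s.card * w j := by
  classical
  set G : ℕ → ι → ℝ≥0∞ := fun j k => ⨅ n, N.cont w (A n ∩ N.cell j k) with hG
  have hGw : ∀ j k, G j k ≤ w j := fun j k =>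
    iInf_le_of_le 0 (N.cont_le w inter_subset_right)
  have hGt : ∀ j k, G j k ≠ ∞ := fun j k => ne_top_of_le_ne_top (hwt j) (hGw j k)
  have hG0 : c ≤ G 0 k₀ := le_iInf fun n => by rw [inter_eq_left.2 (hA0 n)]; exact hc n
  have hGs : ∀ j k, G j k ≤ ∑ k' ∈ N.ch k, G (j + 1) k' := by
    intro j k
    have h1 : Tendsto (fun n => ∑ k' ∈ N.ch k, N.cont w (A n ∩ N.cell (j + 1) k')) atTop
        (𝓝 (∑ k' ∈ N.ch k, G (j + 1) k')) := by
      refine tendsto_finsetSum _ fun k' _ => tendsto_atTop_iInf fun a b hab => ?_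
      exact measure_mono (inter_subset_inter_left _ (hA hab))
    exact ge_of_tendsto' h1 fun n => iInf_le_of_le n (N.cont_le_sum w j k (A n))
  set m := N.flow G k₀ with hm
  have hne : ∀ j k, m j k ≠ 0 → ∃ x, x ∈ A j ∩ N.cell j k := by
    intro j k h
    by_contra h'
    have h1 : A j ∩ N.cell j k = ∅ := eq_empty_of_forall_notMem fun x hx => h' ⟨x, hx⟩
    have h2 : G j k ≤ 0 := iInf_le_of_le j (by rw [h1, measure_empty])
    have h3 := (N.flow_le hG0 hGs j k).trans h2
    simp only [nonpos_iff_eq_zero, mul_eq_zero, hc0, false_or] at h3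
    exact h h3
  have hX : Nonempty X := ⟨(hne 0 k₀ (by simp [hm, Net.flow])).choose⟩
  choose! pt hpt using hne
  set μ : ℕ → Measure X := fun j => Measure.sum fun k => m j k • Measure.dirac (pt j k) with hμ
  have hμap : ∀ j (S : Set X), MeasurableSet S →
      μ j S = ∑' k, m j k * S.indicator 1 (pt j k) := by
    intro j S hS
    simp only [hμ, Measure.sum_apply _ hS, Measure.smul_apply, Measure.dirac_apply' _ hS,
      smul_eq_mul]
  have hiter : ∀ (i d : ℕ) (φ : ι → ℝ≥0∞),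
      ∑' k, m (i + d) k * φ (N.par^[d] k) = ∑' k, m i k * φ k := by
    intro i d φ
    induction d with
    | zero => rfl
    | succ d ih =>
      rw [← ih, ← N.tsum_flow hc0 hG0 hGs hGt (i + d) fun k => φ (N.par^[d] k)]
      rfl
  have hidx : ∀ (i d : ℕ) (x : X), N.par^[d] (N.idx (i + d) x) = N.idx i x := by
    intro i d x
    induction d with
    | zero => rfl
    | succ d ih => rw [Function.iterate_succ_apply, ← add_assoc, N.hpar, ih]
  have hprob : ∀ j, IsProbabilityMeasure (μ j) := by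
    intro j
    constructor
    rw [hμap _ _ MeasurableSet.univ]
    have h1 := hiter 0 j fun _ => 1
    simp only [zero_add] at h1
    simp only [indicator_univ, Pi.one_apply]
    rw [h1]
    simp [hm, Net.flow]
  have hsupp : ∀ n j, n ≤ j → μ j (closure (A n))ᶜ = 0 := by
    intro n j hnj
    rw [hμap _ _ isClosed_closure.measurableSet.compl, ENNReal.tsum_eq_zero]
    intro k
    by_cases h : m j k = 0
    · simp [h]
    · rw [indicator_of_notMem, mul_zero]
      exact not_not.2 (subset_closure (hA hnj (hpt j k h).1))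
  have hK : IsCompact (closure (A 0)) := (hb.subset (hA0 0)).isCompact_closure
  have hcpt := isCompact_setOfPred_probabilityMeasure_mass_eq_compl_isCompact_le (E := X)
    (u := fun _ => 0) (K := fun _ => closure (A 0)) tendsto_const_nhds (fun _ => hK)
    (Or.inl inferInstance)
  set P : ℕ → ProbabilityMeasure X := fun j => ⟨μ j, hprob j⟩ with hP
  obtain ⟨ν, -, hν⟩ := hcpt.ultrafilter_le_nhds (Ultrafilter.map P (hyperfilter ℕ)) (by
    rw [Ultrafilter.coe_map, le_principal_iff, Filter.mem_map]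
    refine Filter.univ_mem' fun j n => ?_
    have := hsupp 0 j (Nat.zero_le _)
    simp only [nonpos_iff_eq_zero]
    exact (ProbabilityMeasure.null_iff_toMeasure_null _ _).2 this)
  have hlim : Tendsto P (hyperfilter ℕ) (𝓝 ν) := hν
  have hev : ∀ n, ∀ᶠ j in (hyperfilter ℕ : Filter ℕ), n ≤ j := fun n =>
    (hyperfilter_le_cofinite.trans Nat.cofinite_eq_atTop.le) (eventually_ge_atTop n)
  refine ⟨ν, inferInstance, fun n => ?_, fun U j s hU hs => ?_⟩
  · have h1 := ProbabilityMeasure.le_liminf_measure_open_of_tendsto hlim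
      (isClosed_closure (s := A n)).isOpen_compl
    refine le_antisymm (h1.trans (liminf_le_of_frequently_le' (Eventually.frequently ?_))) zero_le
    filter_upwards [hev n] with j hj
    exact (hsupp n j hj).le
  · have h1 := ProbabilityMeasure.le_liminf_measure_open_of_tendsto hlim hU
    have h2 : (ν : Measure X) U ≤ ∑ k ∈ s, m j k := by
      refine h1.trans (liminf_le_of_frequently_le' (Eventually.frequently ?_))
      filter_upwards [hev j] with i hi
      obtain ⟨d, rfl⟩ := Nat.exists_eq_add_of_le hi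
      change μ (j + d) U ≤ _
      rw [hμap _ _ hU.measurableSet]
      calc ∑' k, m (j + d) k * U.indicator 1 (pt (j + d) k)
          ≤ ∑' k, m (j + d) k * (s : Set ι).indicator 1 (N.par^[d] k) := by
            refine ENNReal.tsum_le_tsum fun k => ?_
            by_cases h : m (j + d) k = 0
            · simp [h]
            · by_cases hU' : pt (j + d) k ∈ U
              · have h3 : N.par^[d] k ∈ (s : Set ι) := by
                  rw [← show N.idx (j + d) (pt (j + d) k) = k from (hpt _ _ h).2, hidx]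
                  exact hs _ hU'
                rw [indicator_of_mem hU', indicator_of_mem h3]
                rfl
              · simp [hU']
        _ = ∑' k, m j k * (s : Set ι).indicator 1 k := hiter j d _
        _ = ∑ k ∈ s, m j k := by
            rw [tsum_eq_sum (s := s) fun k hk => by simp [hk]]
            exact Finset.sum_congr rfl fun k hk => by simp [hk]
    refine (mul_le_mul' le_rfl h2).trans ?_
    rw [Finset.mul_sum, ← nsmul_eq_mul]
    exact Finset.sum_le_card_nsmul _ _ _ fun k _ => (N.flow_le hG0 hGs j k).trans (hGw j k)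

/-- the dyadic net of Euclidean space -/
noncomputable def dyadic (n : ℕ) : Net (EuclideanSpace ℝ (Fin n)) (Fin n → ℤ) where
  idx j x i := ⌊2 ^ j * x i⌋
  par k i := k i / 2
  ch k := Fintype.piFinset fun i => {2 * k i, 2 * k i + 1}
  hpar j x := by
    funext i
    have h := Int.floor_div_natCast (2 ^ (j + 1) * x i) 2
    simp only [Nat.cast_ofNat] at h
    rw [← h]
    congr 1
    ring
  hch k k' := by
    simp only [Fintype.mem_piFinset, Finset.mem_insert, Finset.mem_singleton, funext_iff]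
    refine forall_congr' fun i => ?_
    omega

theorem dyadic_dist {n j : ℕ} {x y : EuclideanSpace ℝ (Fin n)}
    (h : (dyadic n).idx j x = (dyadic n).idx j y) : dist x y ≤ √n * (1 / 2) ^ j := by
  have h1 : ∀ i, |x i - y i| ≤ (1 / 2) ^ j := by
    intro i
    have h2 := Int.abs_sub_lt_one_of_floor_eq_floor (congrFun h i)
    rw [← mul_sub, abs_mul, abs_of_pos (by positivity)] at h2
    rw [one_div, inv_pow, ← one_div, le_div_iff₀' (by positivity)]
    exact h2.le
  rw [EuclideanSpace.dist_eq, ← Real.sqrt_sq (show (0 : ℝ) ≤ (1 / 2) ^ j by positivity),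
    ← Real.sqrt_mul (Nat.cast_nonneg _)]
  refine Real.sqrt_le_sqrt ?_
  calc ∑ i, dist (x i) (y i) ^ 2 ≤ ∑ _i : Fin n, ((1 / 2 : ℝ) ^ j) ^ 2 :=
        Finset.sum_le_sum fun i _ => pow_le_pow_left₀ dist_nonneg (h1 i) 2
    _ = _ := by simp

theorem dyadic_ball {n : ℕ} (j : ℕ) (x : EuclideanSpace ℝ (Fin n)) :
    ∃ s : Finset (Fin n → ℤ), s.card = 3 ^ n ∧
      ∀ y ∈ ball x ((1 / 2) ^ j), (dyadic n).idx j y ∈ s := by
  refine ⟨Fintype.piFinset fun i => Finset.Icc (⌊2 ^ j * x i⌋ - 1) (⌊2 ^ j * x i⌋ + 1), ?_, ?_⟩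
  · simp only [Fintype.card_piFinset, Int.card_Icc]
    rw [Finset.prod_congr rfl (g := fun _ => 3) fun i _ => by omega]
    simp
  · intro y hy
    simp only [Fintype.mem_piFinset, Finset.mem_Icc, dyadic]
    intro i
    have h1 : |y i - x i| < (1 / 2) ^ j := by
      refine lt_of_le_of_lt ?_ (mem_ball.1 hy)
      exact PiLp.dist_apply_le y x i
    have h2 : |2 ^ j * y i - 2 ^ j * x i| < 1 := by
      rw [← mul_sub, abs_mul, abs_of_pos (by positivity)]
      rwa [one_div, inv_pow, ← one_div, lt_div_iff₀' (by positivity)] at h1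
    rw [abs_lt] at h2
    constructor
    · rw [← Int.floor_sub_one]
      exact Int.floor_mono (by linarith [h2.1])
    · rw [← Int.floor_add_one]
      exact Int.floor_mono (by linarith [h2.2])

theorem hausdorff_eq_zero {n : ℕ} {s : ℝ} (hs : 0 < s) {A : Set (EuclideanSpace ℝ (Fin n))}
    (h : (dyadic n).cont (fun j => ENNReal.ofReal (((1 / 2 : ℝ) ^ j) ^ s)) A = 0) :
    μH[s] A = 0 := by
  set D : ℝ := √n + 1 with hD
  have hD0 : 0 < D := by positivity
  have h1 : ∀ q : ℕ, ∃ t : ℕ → Set (EuclideanSpace ℝ (Fin n)), A ⊆ ⋃ i, t i ∧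
      (∀ i, ediam (t i) ≤ ENNReal.ofReal (D * (1 / 2) ^ q)) ∧
      ∑' i, ediam (t i) ^ s ≤ ENNReal.ofReal (D ^ s * ((1 / 2 : ℝ) ^ s) ^ q) := by
    intro q
    have h2 := h.trans_lt (show 0 < ENNReal.ofReal (((1 / 2 : ℝ) ^ q) ^ s) by
      rw [ENNReal.ofReal_pos]; positivity)
    rw [Net.cont, OuterMeasure.boundedBy_apply] at h2
    simp only [iInf_lt_iff] at h2
    obtain ⟨t, ht, hsum⟩ := h2
    have h3 : ∀ i j k, t i ⊆ (dyadic n).cell j k →
        ediam (t i) ≤ ENNReal.ofReal (D * (1 / 2) ^ j) := fun i j k hjk =>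
      ediam_le_of_forall_dist_le fun x hx y hy =>
        (dyadic_dist ((hjk hx).trans (hjk hy).symm)).trans (by gcongr; linarith)
    refine ⟨t, ht, fun i => ?_, ?_⟩
    · rcases (t i).eq_empty_or_nonempty with h0 | h0
      · simp [h0]
      have h4 := (ENNReal.le_tsum i).trans_lt hsum
      rw [iSup_pos h0, Net.wt] at h4
      simp only [iInf_lt_iff] at h4
      obtain ⟨j, k, hjk, h4⟩ := h4
      refine (h3 i j k hjk).trans (ENNReal.ofReal_le_ofReal ?_)
      rw [ENNReal.ofReal_lt_ofReal_iff (by positivity),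
        Real.rpow_lt_rpow_iff (by positivity) (by positivity) hs] at h4
      gcongr
    · rw [ENNReal.ofReal_mul (by positivity), Real.rpow_pow_comm (by norm_num)]
      refine le_trans ?_ (mul_le_mul' le_rfl hsum.le)
      rw [← ENNReal.tsum_mul_left]
      refine ENNReal.tsum_le_tsum fun i => ?_
      rcases (t i).eq_empty_or_nonempty with h0 | h0
      · simp [h0, hs]
      rw [iSup_pos h0, Net.wt, ← ENNReal.inv_mul_le_iff (by simp; positivity) (by simp)]
      refine le_iInf fun j => le_iInf fun k => le_iInf fun hjk => ?_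
      rw [ENNReal.inv_mul_le_iff (by simp; positivity) (by simp),
        ← ENNReal.ofReal_mul (by positivity), ← Real.mul_rpow hD0.le (by positivity),
        ← ENNReal.ofReal_rpow_of_nonneg (by positivity) hs.le]
      exact ENNReal.rpow_le_rpow (h3 i j k hjk) hs.le
  choose t ht1 ht2 ht3 using h1
  have h2 : ∀ (c r : ℝ), 0 ≤ r → r < 1 →
      Tendsto (fun q : ℕ => ENNReal.ofReal (c * r ^ q)) atTop (𝓝 0) := by
    intro c r h0 h1
    have := ENNReal.tendsto_ofReal ((tendsto_pow_atTop_nhds_zero_of_lt_one h0 h1).const_mul c)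
    simpa using this
  have h3 := Measure.hausdorffMeasure_le_liminf_tsum s A _
    (h2 D (1 / 2) (by norm_num) (by norm_num)) t (Eventually.of_forall ht2)
    (Eventually.of_forall ht1)
  refine le_antisymm (h3.trans ?_) zero_le
  refine (liminf_le_liminf (Eventually.of_forall ht3)).trans (le_of_eq ?_)
  exact (h2 _ _ (by positivity) (Real.rpow_lt_one (by norm_num) (by norm_num) hs)).liminf_eq

/-- **Frostman's lemma** for analytic subsets of Euclidean space. -/
theorem frostman_analytic {n : ℕ} {A : Set (EuclideanSpace ℝ (Fin n))} (hA : AnalyticSet A)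
    {s : ℝ} (hs : 0 < s) (hsA : μH[s] A ≠ 0) :
    ∃ (μ : Measure (EuclideanSpace ℝ (Fin n))) (K : Set (EuclideanSpace ℝ (Fin n))) (C : ℝ),
      IsProbabilityMeasure μ ∧ IsCompact K ∧ K ⊆ A ∧ μ Kᶜ = 0 ∧ 1 ≤ C ∧
        ∀ x r, 0 < r → μ (ball x r) ≤ ENNReal.ofReal (C * r ^ s) := by
  set w : ℕ → ℝ≥0∞ := fun j => ENNReal.ofReal (((1 / 2 : ℝ) ^ j) ^ s) with hw
  have hwa : Antitone w := fun i j hij => ENNReal.ofReal_le_ofReal
    (Real.rpow_le_rpow (by positivity) (pow_le_pow_of_le_one (by norm_num) (by norm_num) hij) hs.le)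
  obtain ⟨k₀, hk₀⟩ : ∃ k₀, (dyadic n).cont w (A ∩ (dyadic n).cell 0 k₀) ≠ 0 := by
    by_contra h
    push Not at h
    refine hsA (hausdorff_eq_zero hs (measure_mono_null ?_ (measure_iUnion_null h)))
    intro x hx
    exact mem_iUnion.2 ⟨_, hx, rfl⟩
  have hcm : MeasurableSet ((dyadic n).cell 0 k₀) := by
    have : Measurable fun x : EuclideanSpace ℝ (Fin n) => (dyadic n).idx 0 x := by
      refine measurable_pi_lambda _ fun i => Int.measurable_floor.comp ?_
      fun_prop
    exact this (measurableSet_singleton k₀)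
  have hA' : AnalyticSet (A ∩ (dyadic n).cell 0 k₀) := by
    rw [inter_eq_iInter]
    exact AnalyticSet.iInter fun b => by cases b; exacts [hcm.analyticSet, hA]
  rw [AnalyticSet] at hA'
  rcases hA' with h0 | ⟨f, hf, hfr⟩
  · exact absurd (by rw [h0, measure_empty]) hk₀
  obtain ⟨c, hc0, hc⟩ := exists_between (pos_iff_ne_zero.2 hk₀)
  have hct : c ≠ ∞ := hc.ne_top
  rw [← hfr] at hc
  have hfc : range f ⊆ (dyadic n).cell 0 k₀ := hfr ▸ inter_subset_right
  obtain ⟨b, T, hT, hTc, hTb⟩ := (dyadic n).exists_bounds hwa ENNReal.ofReal_ne_top f hfc hc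
  obtain ⟨hK, hKs⟩ := iInter_closure_subset hf hTb
  obtain ⟨μ, hμ, hμ0, hμU⟩ := (dyadic n).exists_measure (w := w) (fun _ => ENNReal.ofReal_ne_top)
    (k₀ := k₀) (isBounded_iff.2 ⟨_, fun x hx y hy => dyadic_dist (hx.trans hy.symm)⟩)
    (A := fun k => f '' T k) (fun a b hab => image_mono (hT hab))
    (fun k => (image_subset_range _ _).trans hfc) hc0.ne' fun k => (hTc k).le
  have hc' : 0 < c.toReal := ENNReal.toReal_pos hc0.ne' hct
  refine ⟨μ, _, 1 + 3 ^ n * 2 ^ s / c.toReal, hμ, hK,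
    (image_subset_range _ _).trans (hfr ▸ inter_subset_left), ?_,
    le_add_of_nonneg_right (by positivity), fun x r hr => ?_⟩
  · refine measure_mono_null (compl_subset_compl.2 hKs) ?_
    rw [compl_iInter]
    exact measure_iUnion_null hμ0
  · rcases le_or_gt r 1 with hr1 | hr1
    · obtain ⟨j, hj1, hj2⟩ := exists_nat_pow_near_of_lt_one hr hr1 (show (0 : ℝ) < 1 / 2 by norm_num)
        (by norm_num)
      obtain ⟨S, hS, hS'⟩ := dyadic_ball j x
      have h1 := hμU (ball x r) j S isOpen_ball fun y hy => hS' y (ball_subset_ball hj2 hy)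
      rw [mul_comm, ← ENNReal.le_div_iff_mul_le (Or.inl hc0.ne') (Or.inl hct), div_eq_mul_inv,
        mul_comm, hS, ← ENNReal.ofReal_toReal hct,
        ← ENNReal.ofReal_inv_of_pos hc', ← ENNReal.ofReal_natCast, hw,
        ← ENNReal.ofReal_mul (by positivity), ← ENNReal.ofReal_mul (by positivity)] at h1
      refine h1.trans (ENNReal.ofReal_le_ofReal ?_)
      have h2 : ((1 / 2 : ℝ) ^ j) ^ s ≤ 2 ^ s * r ^ s := by
        rw [← Real.mul_rpow (by norm_num) hr.le]
        refine Real.rpow_le_rpow (by positivity) ?_ hs.le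
        rw [pow_succ] at hj1
        linarith
      push_cast
      calc c.toReal⁻¹ * (3 ^ n * ((1 / 2 : ℝ) ^ j) ^ s)
          ≤ c.toReal⁻¹ * (3 ^ n * (2 ^ s * r ^ s)) := by gcongr
        _ = (3 ^ n * 2 ^ s / c.toReal) * r ^ s := by ring
        _ ≤ _ := by gcongr; linarith
    · refine prob_le_one.trans ?_
      rw [ENNReal.one_le_ofReal]
      exact one_le_mul_of_one_le_of_one_le (le_add_of_nonneg_right (by positivity))
        (Real.one_le_rpow hr1.le hs.le)

/-- **Frostman's lemma** for Borel sets, in terms of Hausdorff dimension. -/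
theorem frostman {n : ℕ} {A : Set (EuclideanSpace ℝ (Fin n))} (hA : MeasurableSet A)
    {s : ℝ} (hs : 0 < s) (hsA : ENNReal.ofReal s < dimH A) :
    ∃ (μ : Measure (EuclideanSpace ℝ (Fin n))) (K : Set (EuclideanSpace ℝ (Fin n))) (C : ℝ),
      IsProbabilityMeasure μ ∧ IsCompact K ∧ K ⊆ A ∧ μ Kᶜ = 0 ∧ 1 ≤ C ∧
        ∀ x r, 0 < r → μ (ball x r) ≤ ENNReal.ofReal (C * r ^ s) := by
  refine frostman_analytic hA.analyticSet hs ?_
  have h := hausdorffMeasure_of_lt_dimH (d := s.toNNReal) hsA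
  rw [Real.coe_toNNReal _ hs.le] at h
  rw [h]
  exact ENNReal.top_ne_zero

end Pool.Agent.Lib.Helper82
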